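import Pool.Agent.Y150.CD.Stm

/-!
# The cyclotomic character and Kummer cocycles at a prime above an odd prime number
-/

set_option autoImplicit false

namespace Pool.Agent.Y314.CD

open Pool.Agent.Y150.CD

theorem nat_not_mem {p : ℕ} (hp : p.Prime) {P : Ideal O} (hP : Over p P) {c : ℕ}
    (hc : ¬ p ∣ c) : ((c : ℕ) : O) ∉ P := by
  intro hmem
  have hcop : Nat.Coprime p c := (Nat.Prime.coprime_iff_not_dvd hp).2 hc
  have h1 := Nat.gcd_eq_gcd_ab p c
  rw [Nat.Coprime.gcd_eq_one hcop] at h1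
  apply hP.1.ne_top
  rw [Ideal.eq_top_iff_one]
  have h2 : (1 : O) = (p : O) * ((Nat.gcdA p c : ℤ) : O) + (c : O) * ((Nat.gcdB p c : ℤ) : O) := by
    have := congrArg (fun x : ℤ => (x : O)) h1
    push_cast at this
    exact this
  rw [h2]
  exact P.add_mem (P.mul_mem_right _ hP.2) (P.mul_mem_right _ hmem)

theorem two_not_mem {p : ℕ} (hp : p.Prime) (hp2 : p ≠ 2) {P : Ideal O} (hP : Over p P) :
    (2 : O) ∉ P := by
  have := nat_not_mem hp hP (c := 2) (by
    intro h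
    rcases (Nat.dvd_prime Nat.prime_two).1 h with h1 | h1
    · exact hp.one_lt.ne' h1
    · exact hp2 h1)
  exact_mod_cast this

theorem root_eq_one {P : Ideal O} (h2 : (2 : O) ∉ P) (hP : P.IsPrime) (n : ℕ) :
    ∀ u : O, u ^ (2 ^ n) = 1 → u - 1 ∈ P → u = 1 := by
  induction n with
  | zero =>
    intro u hu _
    simpa using hu
  | succ n ih =>
    intro u hu hu1
    have h3 : u ^ 2 = 1 := by
      apply ih
      · rw [← pow_mul, ← pow_succ']
        exact hu
      · have : u ^ 2 - 1 = (u - 1) * (u + 1) := by ring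
        rw [this]
        exact P.mul_mem_right _ hu1
    have h4 : (u - 1) * (u + 1) = 0 := by
      have : (u - 1) * (u + 1) = u ^ 2 - 1 := by ring
      rw [this, h3, sub_self]
    rcases mul_eq_zero.1 h4 with h5 | h5
    · exact sub_eq_zero.1 h5
    · exfalso
      apply h2
      have h6 : (2 : O) = -(u - 1) + (u + 1) := by ring
      rw [h6, h5, add_zero]
      exact P.neg_mem hu1

/-- powers of a primitive root are distinct modulo `P` -/
theorem roots_mod {P : Ideal O} (h2 : (2 : O) ∉ P) (hP : P.IsPrime) (n : ℕ) (ζ : O)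
    (hζ : IsPrimitiveRoot ζ (2 ^ n)) (a b : ℕ) (h : ζ ^ a - ζ ^ b ∈ P) :
    ((2 ^ n : ℕ) : ℤ) ∣ (a : ℤ) - b := by
  have hm : 1 ≤ 2 ^ n := Nat.one_le_two_pow
  have h1 : ζ ^ (b * (2 ^ n - 1)) * ζ ^ b = 1 := by
    rw [← pow_add, ← Nat.mul_succ, Nat.succ_eq_add_one, Nat.sub_add_cancel hm, mul_comm, pow_mul,
      hζ.pow_eq_one, one_pow]
  have h3 : ζ ^ (a + b * (2 ^ n - 1)) = 1 := by
    apply root_eq_one h2 hP n
    · rw [← pow_mul, mul_comm, pow_mul, hζ.pow_eq_one, one_pow]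
    · have : ζ ^ (a + b * (2 ^ n - 1)) - 1 = (ζ ^ a - ζ ^ b) * ζ ^ (b * (2 ^ n - 1)) := by
        rw [sub_mul, ← pow_add, mul_comm (ζ ^ b), h1]
      rw [this]
      exact P.mul_mem_right _ h
  have h4 := hζ.dvd_of_pow_eq_one _ h3
  have h5 : ((2 ^ n : ℕ) : ℤ) ∣ ((a + b * (2 ^ n - 1) : ℕ) : ℤ) := by exact_mod_cast h4
  push_cast [Nat.cast_sub hm] at h5
  have h6 : (a : ℤ) - b = ((a : ℤ) + b * (2 ^ n - 1)) - 2 ^ n * b := by ring
  rw [h6]
  push_cast
  exact dvd_sub h5 (dvd_mul_right _ _)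

theorem eq_of_forall_dvd (x y : ℤ_[2]) (h : ∀ n : ℕ, (2 : ℤ_[2]) ^ n ∣ x - y) : x = y := by
  rw [← PadicInt.ext_of_toZModPow]
  intro n
  have h1 : x - y ∈ RingHom.ker (PadicInt.toZModPow (p := 2) n) := by
    rw [PadicInt.ker_toZModPow, Ideal.mem_span_singleton]
    exact_mod_cast h n
  rw [RingHom.mem_ker, map_sub] at h1
  exact sub_eq_zero.1 h1

theorem appr_dvd (x : ℤ_[2]) (n : ℕ) : (2 : ℤ_[2]) ^ n ∣ x - x.appr n := by
  have := PadicInt.appr_spec n x
  rw [Ideal.mem_span_singleton] at this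
  exact_mod_cast this

theorem dvd_transfer (x : ℤ_[2]) (n k : ℕ) (m : ℤ) (h : (2 : ℤ_[2]) ^ n ∣ x - k)
    (h' : ((2 ^ n : ℕ) : ℤ) ∣ (k : ℤ) - m) : (2 : ℤ_[2]) ^ n ∣ x - m := by
  obtain ⟨c, hc⟩ := h'
  have h1 : (2 : ℤ_[2]) ^ n ∣ (k : ℤ_[2]) - m := by
    refine ⟨c, ?_⟩
    have := congrArg (fun y : ℤ => (y : ℤ_[2])) hc
    push_cast at this
    exact this
  have h2 : x - (m : ℤ_[2]) = (x - k) + (k - m) := by ring
  rw [h2]
  exact dvd_add h h1

theorem cyc_int (Z : Cyc) (n : ℕ) : IsIntegral ℤ (Z.z n) := by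
  apply IsIntegral.of_pow (n := 2 ^ n) (by positivity)
  rw [(Z.prim n).pow_eq_one]
  exact isIntegral_one

/-- the root of unity as an algebraic integer -/
noncomputable def zO (Z : Cyc) (n : ℕ) : O := ⟨Z.z n, cyc_int Z n⟩

theorem zO_prim (Z : Cyc) (n : ℕ) : IsPrimitiveRoot (zO Z n) (2 ^ n) := by
  rw [← IsPrimitiveRoot.coe_submonoidClass_iff]
  exact Z.prim n

theorem chf (h1 : S_cyc) (h2 : S_chi) : S_chf := by
  intro p hp hp2 P hP
  obtain ⟨Z⟩ := h1
  have h2m := two_not_mem hp hp2 hP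
  have key : ∀ (g : G) (m : ℕ), (∀ x : O, act g x - x ^ m ∈ P) →
      ((chi g : ℤ_[2]ˣ) : ℤ_[2]) = m := by
    intro g m hg
    have h3 := eq_of_forall_dvd ((chi g : ℤ_[2]ˣ) : ℤ_[2]) ((m : ℤ) : ℤ_[2]) (by
      intro n
      have h4 := appr_dvd ((chi g : ℤ_[2]ˣ) : ℤ_[2]) n
      refine dvd_transfer _ n _ _ h4 ?_
      apply roots_mod h2m hP.1 n (zO Z n) (zO_prim Z n)
      have h5 := h2.2 Z g n _ h4
      have h6 : act g (zO Z n) =
          zO Z n ^ (PadicInt.appr ((chi g : ℤ_[2]ˣ) : ℤ_[2]) n) := by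
        apply Subtype.ext
        exact h5
      rw [← h6]
      exact hg _)
    exact_mod_cast h3
  refine ⟨?_, ?_⟩
  · intro g hg
    have h3 := key g 1 (by
      intro x
      rw [pow_one]
      exact hg x)
    apply Units.ext
    rw [h3]
    simp
  · intro φ hφ
    exact key φ p hφ

/-! ## Kummer cocycles -/

theorem kum_pow {Z : Cyc} {c : ℕ} (K : Kum Z c) (n : ℕ) : K.r n ^ (2 ^ n) = c := by
  induction n with
  | zero => rw [pow_zero, pow_one, K.r0]
  | succ n ih =>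
    rw [pow_succ', pow_mul, K.rs, ih]

theorem kum_int {Z : Cyc} {c : ℕ} (K : Kum Z c) (n : ℕ) : IsIntegral ℤ (K.r n) := by
  apply IsIntegral.of_pow (n := 2 ^ n) (by positivity)
  rw [kum_pow]
  have := isIntegral_algebraMap (R := ℤ) (A := Qb) (x := (c : ℤ))
  simpa using this

/-- the root of `c` as an algebraic integer -/
noncomputable def rO {Z : Cyc} {c : ℕ} (K : Kum Z c) (n : ℕ) : O := ⟨K.r n, kum_int K n⟩

theorem rO_pow {Z : Cyc} {c : ℕ} (K : Kum Z c) (n : ℕ) : rO K n ^ (2 ^ n) = (c : O) := by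
  apply Subtype.ext
  have h1 := kum_pow K n
  have h2 : ((rO K n ^ (2 ^ n) : O) : Qb) = K.r n ^ (2 ^ n) := rfl
  rw [h2, h1]
  rfl

theorem rO_not_mem {Z : Cyc} {c : ℕ} (K : Kum Z c) (n : ℕ) {p : ℕ} (hp : p.Prime) {P : Ideal O}
    (hP : Over p P) (hc : ¬ p ∣ c) : rO K n ∉ P := by
  intro h
  apply nat_not_mem hp hP hc
  rw [← rO_pow K n]
  exact P.pow_mem_of_mem h _ (by positivity)

theorem kin : S_kin := by
  intro Z p c K hp hp2 P hP hc g hg
  have h2m := two_not_mem hp hp2 hP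
  apply eq_of_forall_dvd
  intro n
  have h4 := appr_dvd (K.t g) n
  have h5 := K.act g n _ h4
  have h6 : act g (rO K n) = zO Z n ^ (PadicInt.appr (K.t g) n) * rO K n := by
    apply Subtype.ext
    exact h5
  have h7 := hg (rO K n)
  rw [h6] at h7
  have h8 : (zO Z n ^ (PadicInt.appr (K.t g) n) - zO Z n ^ 0) * rO K n ∈ P := by
    rw [pow_zero, sub_mul, one_mul]
    exact h7
  rcases hP.1.mem_or_mem h8 with h9 | h9
  · have h10 := roots_mod h2m hP.1 n (zO Z n) (zO_prim Z n) _ _ h9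
    have h11 := dvd_transfer (K.t g) n _ 0 h4 (by simpa using h10)
    simpa using h11
  · exact absurd h9 (rO_not_mem K n hp hP hc)

theorem kfr : S_kfr := by
  intro Z p c K hp hp2 P hP hsq φ hφ hdvd
  have h2m := two_not_mem hp hp2 hP
  haveI : Fact p.Prime := ⟨hp⟩
  have hc0 : (c : ZMod p) ≠ 0 := by
    intro h
    apply hsq
    rw [h]
    exact IsSquare.zero
  have hpc : ¬ p ∣ c := by
    intro h
    exact hc0 ((ZMod.natCast_eq_zero_iff c p).2 h)
  have h1 := K.act φ 1 0 (by simpa using hdvd)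
  rw [pow_zero, one_mul] at h1
  have h3 : act φ (rO K 1) = rO K 1 := by
    apply Subtype.ext
    exact h1
  have h4 := hφ (rO K 1)
  rw [h3] at h4
  have hodd : p = 2 * (p / 2) + 1 := by
    have := hp.eq_two_or_odd
    omega
  have h5 : rO K 1 ^ p = (c : O) ^ (p / 2) * rO K 1 := by
    conv_lhs => rw [hodd, pow_succ, pow_mul]
    have := rO_pow K 1
    rw [pow_one] at this
    rw [this]
  rw [h5] at h4
  have h6 : (c : ZMod p) ^ (p / 2) = -1 := by
    rcases ZMod.pow_div_two_eq_neg_one_or_one p hc0 with h | h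
    · exact absurd ((ZMod.euler_criterion p hc0).2 h) hsq
    · exact h
  have h7 : (c : O) ^ (p / 2) + 1 ∈ P := by
    have h8 : (p : ℕ) ∣ c ^ (p / 2) + 1 := by
      rw [← ZMod.natCast_eq_zero_iff]
      push_cast
      rw [h6]
      ring
    obtain ⟨e, he⟩ := h8
    have h9 : (c : O) ^ (p / 2) + 1 = (p : O) * (e : O) := by
      have := congrArg (fun x : ℕ => (x : O)) he
      push_cast at this
      exact this
    rw [h9]
    exact P.mul_mem_right _ hP.2
  have h8 : (2 : O) * rO K 1 ∈ P := by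
    have : (2 : O) * rO K 1 = (rO K 1 - (c : O) ^ (p / 2) * rO K 1) +
        ((c : O) ^ (p / 2) + 1) * rO K 1 := by ring
    rw [this]
    exact P.add_mem h4 (P.mul_mem_right _ h7)
  rcases hP.1.mem_or_mem h8 with h9 | h9
  · exact h2m h9
  · exact rO_not_mem K 1 hp hP hpc h9

end Pool.Agent.Y314.CD
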